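import Pool.Agent.Helper14.IT.Gen
import Pool.Agent.Helper14.TT.M_AllD
import Pool.Agent.Helper14.T3.M_Alg
import Pool.Agent.Helper28.T3.Asm
import Pool.Agent.Helper63.T3.M_QFD
import Pool.Agent.Helper78.T3.M_AsmF

/-!
# Twists of the newforms of level `2^n` and `3^n` by imaginary quadratic fields
-/

set_option autoImplicit false

open CongruenceSubgroup
open scoped NumberField

namespace Pool.Agent.Helper14.Kept.InertTwists

open Pool.Agent.Helper14.CV

/-- `f` is a newform of weight `2`, level `p^n` (`p` prime) and trivial character: it is a cusp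
form on `Γ₀(p^n)` with first coefficient `1`, an eigenform of all Hecke operators `T_l`, `l ≠ p`
prime, and of `U_p`, and its eigenvalues at the primes `l ≠ p` do not come from the lower level
`p^(n-1)` (no nonzero cusp form on `Γ₀(p^(n-1))` has the same eigenvalues at all primes
`l ≠ p`). -/
structure IsNewformP (p n : ℕ) (f : CuspForm (G0 (p ^ n)) 2) : Prop where
  normalised : fc f 1 = 1
  hecke : ∀ l : ℕ, l.Prime → l ≠ p → HeckeEig f l (fc f l)
  hecke_p : ∀ m : ℕ, fc f (p * m) = fc f p * fc f m
  new : ∀ g : CuspForm (G0 (p ^ (n - 1))) 2,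
    (∀ l : ℕ, l.Prime → l ≠ p → HeckeEig g l (fc f l)) → g = 0

/-- The root number of `f` is `ε`: the completed function satisfies `Λ(s,f) = ε Λ(1-s,f)` in the
strip `-1/2 < Re s < 3/2`, where neither Gamma factor has a pole. -/
def HasRoot {N : ℕ} [NeZero N] (ε : ℤ) (f : CuspForm (G0 N) 2) : Prop :=
  ∀ s : ℂ, -1 / 2 < s.re → s.re < 3 / 2 → Lam f s = (ε : ℂ) * Lam f (1 - s)

/-- `L` is the `L`-function of the twist of `f` by the quadratic character `m ↦ (m/D)` in the analytic
normalisation (centre `1/2`): it is entire and `L(s) = ∑ (m/D) a_m m^(-1/2) m^(-s)` for `Re s > 3/2`. -/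
def IsTwistL {N : ℕ} (D : ℕ) (f : CuspForm (G0 N) 2) (L : ℂ → ℂ) : Prop :=
  Differentiable ℂ L ∧ ∀ s : ℂ, 3 / 2 < s.re →
    HasSum (fun m : ℕ => ((jacobiSym (m : ℤ) D : ℤ) : ℂ) * fc f m / (m : ℂ) ^ (1 / 2 : ℂ) /
      (m : ℂ) ^ s) (L s)

/-- Let `p = 2` or `p = 3`, let `K` be an imaginary quadratic field of odd discriminant `-D` in which
`p` is inert and whose class number is not divisible by `p`, and let `f` be a newform of weight `2`,
level `p^n`, `n ≥ 3`, and trivial character with root number `-(-1)^n` (so that the twist of `f` by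
the quadratic character `(·/D)` of `K` has root number `+1`). Then the twist has an entire
`L`-function, and its central value is not zero. -/
theorem result (p n D : ℕ) [NeZero p] (hp : p = 2 ∨ p = 3) (hn : 3 ≤ n)
    (K : Type) [Field K] [NumberField K] (hK : Module.finrank ℚ K = 2)
    (hD : NumberField.discr K = -(D : ℤ)) (hodd : Odd D)
    (hinert : (Ideal.span {((p : ℕ) : 𝓞 K)}).IsPrime) (hcl : ¬ p ∣ NumberField.classNumber K)
    (f : CuspForm (G0 (p ^ n)) 2) (hf : IsNewformP p n f) (hε : HasRoot (-(-1) ^ n) f) :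
    (∃ L : ℂ → ℂ, IsTwistL D f L) ∧ ∀ L : ℂ → ℂ, IsTwistL D f L → L (1 / 2) ≠ 0 := by
  have h4 : D % 4 = 3 := Pool.Agent.Helper14.IT.mod_four D K hK hD hodd
  obtain ⟨q⟩ := Pool.Agent.Helper63.T3.hQFD D K h4 hK hD
  have hsq : Squarefree D := Pool.Agent.Helper14.IT.sqf q h4
  have hcnf := Pool.Agent.Helper28.T3.cnf D K q hsq h4
  rcases hp with rfl | rfl
  · have h8 := Pool.Agent.Helper14.IT.inert_two q h4 hinert
    have hprime : D.Prime := by
      rcases Nat.lt_or_ge 4 D with h | h
      · refine Pool.Agent.Helper14.IT.prime_of_odd D (by omega) hodd hsq ?_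
        intro h2
        have e := hcnf h
        have h5 : (2 : ℤ) ∣ (D : ℤ) * NumberField.classNumber K := by
          rw [e]
          exact (dvd_abs _ _).2 h2
        have hp2 : Prime (2 : ℤ) := Int.prime_two
        rcases hp2.dvd_or_dvd h5 with h6 | h6
        · have h7 : 2 ∣ D := by exact_mod_cast h6
          omega
        · exact hcl (by exact_mod_cast h6)
      · have : D = 3 := by omega
        rw [this]
        exact Nat.prime_three
    have e : (-(-1) ^ n : ℤ) = Pool.Agent.Helper14.TT.wT D n := by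
      unfold Pool.Agent.Helper14.TT.wT
      have h2 : jacobiSym 2 D = -1 := by
        have h := jacobiSym.at_two (b := D) hodd
        rw [h, ZMod.χ₈_nat_eq_if_mod_eight, if_neg (by omega), if_neg (by omega)]
      rw [h2]
    rw [e] at hε
    exact Pool.Agent.Helper14.TT.finD D n f (Or.inl ⟨hprime, h8⟩) hn
      ⟨hf.normalised, hf.hecke, hf.hecke_p, hf.new⟩ hε
  · have h3 := Pool.Agent.Helper14.IT.inert_three q hinert
    have hok : Pool.Agent.Helper14.T3.Okt D := by
      refine ⟨hsq, by omega, ?_⟩
      intro h2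
      have e := hcnf (by omega)
      have h5 : (3 : ℤ) ∣ (D : ℤ) * NumberField.classNumber K := by
        rw [e]
        exact (dvd_abs _ _).2 h2
      rcases Int.prime_three.dvd_or_dvd h5 with h6 | h6
      · have h7 : 3 ∣ D := by exact_mod_cast h6
        omega
      · exact hcl (by exact_mod_cast h6)
    exact Pool.Agent.Helper78.T3.hFinT3 Pool.Agent.Helper78.T3.asmF.1 Pool.Agent.Helper14.T3.core3
      D n f hok hn ⟨hf.normalised, hf.hecke, hf.hecke_p, hf.new⟩ hε

end Pool.Agent.Helper14.Kept.InertTwists
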