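import Pool.Agent.Helper14.TT.M_AllD

/-!
# Central values of quadratic twists of the newforms of weight 2 and level a power of two
-/

set_option autoImplicit false

open CongruenceSubgroup

namespace Pool.Agent.Results.MP_1d384c_nt.TwistedCentralValues

open Pool.Agent.Helper14.CV

/-- `f` is a newform of weight `2`, level `2^n` and trivial character: it is a cusp form on `Γ₀(2^n)`
with first coefficient `1`, an eigenform of all Hecke operators `T_l`, `l` an odd prime, and of `U_2`,
and its eigenvalues at the odd primes do not come from the lower level `2^(n-1)` (no nonzero cusp form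
on `Γ₀(2^(n-1))` has the same eigenvalues at all odd primes). -/
structure IsNew (n : ℕ) (f : CuspForm (G0 (2 ^ n)) 2) : Prop where
  normalised : fc f 1 = 1
  hecke : ∀ l : ℕ, l.Prime → l ≠ 2 → HeckeEig f l (fc f l)
  hecke_two : ∀ m : ℕ, fc f (2 * m) = fc f 2 * fc f m
  new : ∀ g : CuspForm (G0 (2 ^ (n - 1))) 2,
    (∀ l : ℕ, l.Prime → l ≠ 2 → HeckeEig g l (fc f l)) → g = 0

/-- The root number of `f` is `ε`: the completed function satisfies `Λ(s,f) = ε Λ(1-s,f)` in the
strip `-1/2 < Re s < 3/2`, where neither Gamma factor has a pole. -/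
def HasRoot {N : ℕ} [NeZero N] (ε : ℤ) (f : CuspForm (G0 N) 2) : Prop :=
  ∀ s : ℂ, -1 / 2 < s.re → s.re < 3 / 2 → Lam f s = (ε : ℂ) * Lam f (1 - s)

/-- The conductors of the twists: primes `3` modulo `8`, the prime `7`, and `5 l` with a prime `l = 3`
modulo `8`. The character `m ↦ (m/D)` is the character of the field `ℚ(√-D)`. -/
def Conductor (D : ℕ) : Prop :=
  (D.Prime ∧ D % 8 = 3) ∨ D = 7 ∨ ∃ l : ℕ, l.Prime ∧ l % 8 = 3 ∧ D = 5 * l

/-- `L` is the `L`-function of the twist of `f` by the quadratic character `m ↦ (m/D)` in the analytic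
normalisation (centre `1/2`): it is entire and `L(s) = ∑ (m/D) a_m m^(-1/2) m^(-s)` for `Re s > 3/2`. -/
def IsTwistL {N : ℕ} (D : ℕ) (f : CuspForm (G0 N) 2) (L : ℂ → ℂ) : Prop :=
  Differentiable ℂ L ∧ ∀ s : ℂ, 3 / 2 < s.re →
    HasSum (fun m : ℕ => ((jacobiSym (m : ℤ) D : ℤ) : ℂ) * fc f m / (m : ℂ) ^ (1 / 2 : ℂ) /
      (m : ℂ) ^ s) (L s)

/-- Let `f` be a newform of weight `2`, level `2^n`, `n ≥ 3`, and trivial character with root number
`ε`, and let `D` be a prime `3` modulo `8`, or `7`, or `5 l` with a prime `l = 3` modulo `8`, such that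
`ε (2/D)^n = -1` (the root number of the twist is `+1`). Then the twist of `f` by `(·/D)` has an entire
`L`-function, and its central value is not zero. -/
theorem result (n D : ℕ) (hn : 3 ≤ n) (hD : Conductor D) (f : CuspForm (G0 (2 ^ n)) 2)
    (hf : IsNew n f) (ε : ℤ) (hε : HasRoot ε f) (h : ε * jacobiSym 2 D ^ n = -1) :
    (∃ L : ℂ → ℂ, IsTwistL D f L) ∧ ∀ L : ℂ → ℂ, IsTwistL D f L → L (1 / 2) ≠ 0 := by
  have hD' : D % 4 = 3 := by
    rcases hD with ⟨_, h⟩ | h | ⟨l, _, hl, rfl⟩ <;> omega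
  have h2 : Int.gcd 2 D = 1 := by
    have : Nat.Coprime 2 D := (Nat.coprime_two_left).2 (Nat.odd_iff.2 (by omega))
    simpa [Int.gcd] using this
  have hc : jacobiSym 2 D = 1 ∨ jacobiSym 2 D = -1 := jacobiSym.eq_one_or_neg_one h2
  have e : ε = Pool.Agent.Helper14.TT.wT D n := by
    unfold Pool.Agent.Helper14.TT.wT
    have hs : jacobiSym 2 D ^ n * jacobiSym 2 D ^ n = 1 := by
      rcases hc with h | h
      · rw [h]; simp
      · rw [h, ← mul_pow]; simp
    calc ε = ε * (jacobiSym 2 D ^ n * jacobiSym 2 D ^ n) := by rw [hs, mul_one]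
      _ = ε * jacobiSym 2 D ^ n * jacobiSym 2 D ^ n := by ring
      _ = -(jacobiSym 2 D ^ n) := by rw [h]; ring
  subst e
  exact Pool.Agent.Helper14.TT.finD D n f hD hn ⟨hf.normalised, hf.hecke, hf.hecke_two, hf.new⟩ hε

end Pool.Agent.Results.MP_1d384c_nt.TwistedCentralValues
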